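import Pool.Agent.Lib_helper56.Dec.Final

/-!
# Every language of `Pol(G)` is decomposable

Full positive answer to Q1 of MP_0c20e5_lc.

Idea.  For a morphism `π` from words to a finite group let `u ≤ u'` be the greatest relation with
`π u = π u'` such that every shuffle of `u` with a word `v` is below some shuffle of `u'` with `v`.
This is a stable preorder and its up-sets `{x : w ≤ x}` form a sequential and parallel system as
soon as there are finitely many of them.  Finiteness is the main point (`finite_upsets`): factors
of a word that are rich (in a robust, recursive sense, `P`, `NF`) in the vertices of the Cayley
graph they visit are replaced by blobs; normal words with blobs are compared lexicographically by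
the numbers of their blobs of each size; an insertion either keeps the richness at no cost (`P_dup`)
or strictly increases this measure (`event`), and a Ramsey argument (`ramsey`) bounds the number of
blobs.  The induction is `dominate`.
-/

set_option autoImplicit false

namespace Pool.Agent.Results.MP_0c20e5_lc.PolDecomposable

open Pool.Agent.Dec56

/-- For every finite alphabet `A`, every language of `Pol(G)` over `A` is decomposable. -/
theorem result (A : Type) [Finite A] (L : Language A) (hL : IsPolG L) : Decomposable L :=
  pol_decomposable hL

end Pool.Agent.Results.MP_0c20e5_lc.PolDecomposable
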